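import Pool.Agent.Helper35.MS.StC

/-!
# Project MS, module AV2: the reaction inequality with regularisation
-/

set_option autoImplicit false

namespace Helper82.MS

open Helper35.MS Helper35.PI Helper35.PI2 Helper32.CL

theorem hAV2 (hCE0 : StCE0) (hCE1 : StCE1) (hCE2 : StCE2) (hAV1 : StAV1) : StAV2 := by
  intro V _ _ m a b ε x s v η hε hε1 hx hs hv hη hreg
  obtain ⟨h01, h02, -⟩ := hCE0
  have hx0 : 0 ≤ x := by rw [hx]; positivity
  have hs0 : 0 ≤ s := by rw [hs]; positivity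
  have hv0 : 0 ≤ v := by rw [hv]; positivity
  obtain ⟨-, hg0, hg3, hG0, -⟩ := h01 x hx0
  obtain ⟨R, hR0, hRs, hvR, hD⟩ := hAV1 V m a b
  rw [← hv, ← hx] at hvR
  rw [← hs] at hRs hD
  obtain ⟨D, hDe⟩ : ∃ D : ℝ, D = ‖a‖ ^ 2 * ‖b‖ ^ 2 - (inner ℝ a b : ℝ) ^ 2 := ⟨_, rfl⟩
  rw [← hDe] at hD ⊢
  obtain ⟨y, hy⟩ : ∃ y : ℝ, y = Real.sqrt v := ⟨_, rfl⟩
  have hy0 : 0 ≤ y := by rw [hy]; exact Real.sqrt_nonneg _
  have hyv : y ^ 2 = v := by rw [hy]; exact Real.sq_sqrt hv0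
  have hη0 : 0 < η := by rw [hη]; exact Real.sqrt_pos.mpr (by positivity)
  have hη2 : η ^ 2 = v + ε ^ 2 := by rw [hη]; exact Real.sq_sqrt (by positivity)
  have hyη : y < η := by
    refine lt_of_pow_lt_pow_left₀ 2 hη0.le ?_
    rw [hη2, hyv]
    have : 0 < ε ^ 2 := by positivity
    linarith
  have hηy : η ≤ y + ε := by
    refine le_of_sq_le_sq ?_ (by positivity)
    rw [hη2, ← hyv]
    nlinarith
  obtain ⟨s0, hs0e⟩ : ∃ s0 : ℝ, s0 = fm0 x - gm0 x * y := ⟨_, rfl⟩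
  obtain ⟨γ, hγ⟩ : ∃ γ : ℝ, γ = gm0 x := ⟨_, rfl⟩
  obtain ⟨Γ, hΓ⟩ : ∃ Γ : ℝ, Γ = gm1 x := ⟨_, rfl⟩
  obtain ⟨f1, hf1⟩ : ∃ f1 : ℝ, f1 = fm1 x := ⟨_, rfl⟩
  have hd : s0 - s = γ * (η - y) := by rw [hs0e, hreg, hγ]; ring
  have hγ0 : 0 < γ := by rw [hγ]; exact hg0
  have hγ3 : γ ≤ 3 / 10 := by rw [hγ]; exact hg3
  have hΓ0 : 0 < Γ := by rw [hΓ]; exact hG0
  have hss0 : s < s0 := by
    have : 0 < γ * (η - y) := mul_pos hγ0 (by linarith)
    linarith
  have hvs : v ≤ x * s0 := hvR.trans (mul_le_mul_of_nonneg_left (hRs.trans hss0.le) hx0)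
  have h11 : 11 / 20 ≤ s0 := by
    rw [hs0e]
    refine h02 x y hx0 hy0 ?_
    rw [hyv, ← hs0e]
    exact hvs
  have hsum : 1 < s + s0 := by
    have h1 : γ * (η - y) ≤ 3 / 10 * (1 / 1000) :=
      mul_le_mul hγ3 (by linarith) (by linarith) (by norm_num)
    linarith
  have hquad : s ^ 2 - s < s0 ^ 2 - s0 := by nlinarith
  -- comparison of the right hand sides
  have hmain : ∀ B : ℝ, v + s0 ^ 2 + 2 * B - s0 ≤
      (f1 + Γ * y) * (x ^ 2 + x + y ^ 2) - γ * (x + s0) * y → D ≤ B →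
      v + s ^ 2 + 2 * D - s < (f1 + Γ * η) * (x ^ 2 + x + v) - γ * (x + s) * v / η := by
    intro B hB hDB
    have h1 : (f1 + Γ * y) * (x ^ 2 + x + y ^ 2) ≤ (f1 + Γ * η) * (x ^ 2 + x + v) := by
      rw [hyv]
      refine mul_le_mul_of_nonneg_right ?_ (by positivity)
      have : Γ * y ≤ Γ * η := mul_le_mul_of_nonneg_left hyη.le hΓ0.le
      linarith
    have h2 : γ * (x + s) * v / η ≤ γ * (x + s0) * y := by
      rw [div_le_iff₀ hη0, ← hyv]
      have h3 : γ * (x + s) ≤ γ * (x + s0) := mul_le_mul_of_nonneg_left (by linarith) hγ0.le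
      have h4 : y ^ 2 ≤ y * η := by nlinarith
      calc γ * (x + s) * y ^ 2 ≤ γ * (x + s0) * (y * η) :=
            mul_le_mul h3 h4 (by positivity) (by positivity)
        _ = γ * (x + s0) * y * η := by ring
    linarith
  have hRs0 : D ≤ R * (s0 - R) := by
    refine hD.trans (mul_le_mul_of_nonneg_left (by linarith) hR0)
  rw [← hγ, ← hΓ, ← hf1]
  by_cases hcase : v ≤ x * s0 / 2
  · refine hmain (s0 ^ 2 / 4) ?_ ?_
    · have h1 := hCE1 x y hx0 hy0 s0 (f1 + Γ * y) hs0e (by rw [hf1, hΓ])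
        (by rw [hyv]; exact hcase)
      rw [← hγ, hyv] at h1
      rw [hyv]
      linarith
    · nlinarith [sq_nonneg (2 * R - s0)]
  · rw [not_le] at hcase
    have hxpos : 0 < x := by
      rcases hx0.lt_or_eq with h | h
      · exact h
      · exfalso
        rw [← h] at hvs hcase
        linarith
    have hw : y ^ 2 / x ≤ R := by
      rw [div_le_iff₀ hxpos, hyv]
      linarith
    have hw2 : s0 / 2 ≤ y ^ 2 / x := by
      rw [le_div_iff₀ hxpos, hyv]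
      linarith
    refine hmain (y ^ 2 / x * (s0 - y ^ 2 / x)) ?_ ?_
    · have h1 := hCE2 x y hxpos hy0 s0 (f1 + Γ * y) hs0e (by rw [hf1, hΓ])
        (by rw [hyv]; exact hcase.le) (by rw [hyv]; exact hvs)
      rw [← hγ] at h1
      rw [← hyv]
      linarith
    · refine hRs0.trans ?_
      nlinarith [mul_nonneg (sub_nonneg.mpr hw) (by linarith : 0 ≤ R + y ^ 2 / x - s0)]

end Helper82.MS
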