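import Pool.Agent.Helper35.MS.StE
import Pool.Agent.Helper35.MS.StJ

/-!
# Project MS (MP_925021_gt): module SIA (sharp inequality of Simon averaged over a set)
-/

set_option autoImplicit false

namespace Helper82.MS

open Helper35.MS Helper35.PI Helper35.PI2 Helper32.CL
open scoped ContDiff Manifold Topology ENNReal BigOperators
open MeasureTheory Set Filter

theorem slice_contJ {M : Type} [TopologicalSpace M] {E : Type} [TopologicalSpace E]
    {J : Set ℝ} {g : M → ℝ → E} (hg : CSTJ J g) {t : ℝ}
    (ht : t ∈ J) : Continuous (fun q => g q t) := by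
  have hg' : ContinuousOn (fun z : M × ℝ => g z.1 z.2) (univ ×ˢ J) := hg
  have h := hg'.comp_continuous (f := fun q : M => (q, t)) (by fun_prop)
    (fun q => ⟨mem_univ _, ht⟩)
  exact h

theorem hSIA (hSIM : StSIM) (hHAR : StHAR) (hMUJ : StMUJ) (hI4J : StI4J) : StSIA := by
  intro N M _ _ _ _ _ _ _ _ J F c χ hS t ht h k hh hk h0 hgk P hP
  obtain ⟨s, -, hs⟩ := hMUJ 2 N M J F c χ hS
  obtain ⟨hfin, -, hint⟩ := hs t ht
  obtain ⟨hF1, hF2, -, -⟩ := hI4J 2 N M J F hS.mcf
  have hSIM' := hSIM N M J F c χ hS t ht h k hh hk h0 hgk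
  have hHAR' := hHAR N M J F c χ hS t ht P hP
  set μ : Measure M := muM 2 F c χ t with hμ
  haveI : IsFiniteMeasure μ := ⟨hfin⟩
  have hFc : Continuous (fun q : M => F q t) := slice_contJ (g := fun q r => F q r) hF1 ht
  have hHc : Continuous (fun q : M => HH (n := 2) F q t) :=
    slice_contJ (g := fun q r => HH (n := 2) F q r) hF2 ht
  have hhc : Continuous h := hh.continuous
  have hk0 : ∀ q, 0 ≤ k q := fun q => (norm_nonneg _).trans (hgk q)
  have hYc : Continuous (fun q : M => YF F q t) := by
    unfold YF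
    exact hHc.norm.pow 2
  have hY0 : ∀ q : M, 0 ≤ YF F q t := fun q => by unfold YF; positivity
  set I : ℝ := ∫ p, h p * YF F p t ∂μ with hI
  have hI0 : 0 ≤ I := integral_nonneg (fun p => mul_nonneg (h0 p) (hY0 p))
  set R : ℝ := Real.sqrt (2 * wI F c χ t * μ.real P) with hR
  have hR0 : 0 ≤ R := Real.sqrt_nonneg _
  have hK0 : 0 ≤ ∫ p, k p ∂μ := integral_nonneg hk0
  have hmP0 : 0 ≤ μ.real P := measureReal_nonneg
  have hmP : μ P = ENNReal.ofReal (μ.real P) := by
    rw [measureReal_def, ENNReal.ofReal_toReal (measure_ne_top μ P)]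
  have hFm : Measurable (fun q : M => F q t) := hFc.measurable
  have hkm : Measurable (fun z : M × M => ENNReal.ofReal (k z.2 / ‖F z.2 t - F z.1 t‖)) := by
    apply ENNReal.measurable_ofReal.comp
    apply Measurable.div (hk.measurable.comp measurable_snd)
    exact ((hFm.comp measurable_snd).sub (hFm.comp measurable_fst)).norm
  have hm1 : ∀ p : M, Measurable (fun q : M => ENNReal.ofReal (1 / ‖F q t - F p t‖)) := by
    intro p
    apply ENNReal.measurable_ofReal.comp
    exact measurable_const.div (hFm.sub_const _).norm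
  have hmq : Measurable (fun q : M => ∫⁻ p, ENNReal.ofReal (k p / ‖F p t - F q t‖) ∂μ) :=
    hkm.lintegral_prod_right'
  have hpi := Real.pi_pos
  have hih : IntegrableOn h P μ := (hint h hhc).1.integrableOn
  have hkey : ENNReal.ofReal (16 * Real.pi * ∫ q in P, h q ∂μ)
      ≤ ENNReal.ofReal (μ.real P * I + 8 * R * ∫ q, k q ∂μ) := by
    calc ENNReal.ofReal (16 * Real.pi * ∫ q in P, h q ∂μ)
        = ∫⁻ q in P, ENNReal.ofReal (16 * Real.pi * h q) ∂μ := by
          rw [← integral_const_mul]
          apply ofReal_integral_eq_lintegral_ofReal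
          · exact hih.const_mul _
          · exact Eventually.of_forall (fun q => by have := h0 q; positivity)
      _ ≤ ∫⁻ q in P, (ENNReal.ofReal I
            + 8 * ∫⁻ p, ENNReal.ofReal (k p / ‖F p t - F q t‖) ∂μ) ∂μ :=
          lintegral_mono (fun q => hSIM' q)
      _ = ENNReal.ofReal I * μ P
            + 8 * ∫⁻ q in P, ∫⁻ p, ENNReal.ofReal (k p / ‖F p t - F q t‖) ∂μ ∂μ := by
          rw [lintegral_add_left measurable_const, lintegral_const, Measure.restrict_apply_univ,
            lintegral_const_mul _ hmq]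
      _ = ENNReal.ofReal I * μ P
            + 8 * ∫⁻ p, ∫⁻ q in P, ENNReal.ofReal (k p / ‖F p t - F q t‖) ∂μ ∂μ := by
          rw [lintegral_lintegral_swap hkm.aemeasurable]
      _ ≤ ENNReal.ofReal I * μ P + 8 * ∫⁻ p, ENNReal.ofReal (k p) * ENNReal.ofReal R ∂μ := by
          apply add_le_add le_rfl
          apply mul_le_mul' le_rfl
          apply lintegral_mono
          intro p
          calc ∫⁻ q in P, ENNReal.ofReal (k p / ‖F p t - F q t‖) ∂μ
              = ∫⁻ q in P, ENNReal.ofReal (k p) * ENNReal.ofReal (1 / ‖F q t - F p t‖) ∂μ := by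
                apply lintegral_congr
                intro q
                rw [← ENNReal.ofReal_mul (hk0 p), norm_sub_rev, mul_one_div]
            _ = ENNReal.ofReal (k p) * ∫⁻ q in P, ENNReal.ofReal (1 / ‖F q t - F p t‖) ∂μ :=
                lintegral_const_mul _ (hm1 p)
            _ ≤ ENNReal.ofReal (k p) * ENNReal.ofReal R :=
                mul_le_mul' le_rfl (hHAR' (F p t))
      _ = ENNReal.ofReal I * ENNReal.ofReal (μ.real P)
            + 8 * (ENNReal.ofReal (∫ p, k p ∂μ) * ENNReal.ofReal R) := by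
          have hma : Measurable (fun p : M => ENNReal.ofReal (k p)) :=
            ENNReal.measurable_ofReal.comp hk.measurable
          rw [lintegral_mul_const _ hma, hmP,
            ← ofReal_integral_eq_lintegral_ofReal (hint k hk).1 (Eventually.of_forall hk0)]
      _ = ENNReal.ofReal (μ.real P * I + 8 * R * ∫ q, k q ∂μ) := by
          have h8 : (8 : ℝ≥0∞) = ENNReal.ofReal 8 := by norm_num
          rw [ENNReal.ofReal_add (by positivity) (by positivity), h8,
            ← ENNReal.ofReal_mul hI0, ← ENNReal.ofReal_mul hK0, ← ENNReal.ofReal_mul (by norm_num)]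
          have e1 : I * μ.real P = μ.real P * I := mul_comm _ _
          have e2 : 8 * ((∫ p, k p ∂μ) * R) = 8 * R * ∫ q, k q ∂μ := by ring
          rw [e1, e2]
  exact (ENNReal.ofReal_le_ofReal_iff (by positivity)).mp hkey

end Helper82.MS
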